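import Pool.Agent.Q225.GH.Stm

/-!
# Job KER: the only relation between the boundaries of the faces
-/

set_option autoImplicit false

namespace Pool.Agent.Q124.GH

open Finset Pool.Agent.Q225.GH

open Classical in
theorem t_KER : S_KER := by
  intro V _ _ H _ σ hconn hvert y hy
  -- the value at the edge of a dart
  have h1 : ∀ d : H.Dart, y (Quotient.mk _ d) + y (Quotient.mk _ d.symm) = 0 := by
    intro d
    have h2 := congrFun hy ⟨d.edge, d.edge_mem⟩
    rw [Finset.sum_apply, Pi.zero_apply] at h2
    have h3 : ∀ f : Faces σ, (y f • fch σ f) ⟨d.edge, d.edge_mem⟩ =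
        ∑ d' : H.Dart, if d'.edge = d.edge ∧ (Quotient.mk _ d' : Faces σ) = f then y f else 0 := by
      intro f
      rw [Pi.smul_apply, smul_eq_mul, fch, Finset.mul_sum, Finset.sum_filter]
      refine Finset.sum_congr rfl fun d' _ => ?_
      rw [mul_one]
    rw [Finset.sum_congr rfl fun f _ => h3 f, Finset.sum_comm] at h2
    have h4 : ∀ d' : H.Dart, (∑ f : Faces σ,
        if d'.edge = d.edge ∧ (Quotient.mk _ d' : Faces σ) = f then y f else 0) =
        if d'.edge = d.edge then y (Quotient.mk _ d') else 0 := by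
      intro d'
      by_cases h5 : d'.edge = d.edge
      · simp [h5]
      · simp [h5]
    rw [Finset.sum_congr rfl fun d' _ => h4 d', ← Finset.sum_filter] at h2
    have h5 : (univ.filter fun d' : H.Dart => d'.edge = d.edge) = {d, d.symm} := by
      ext d'
      rw [mem_filter, mem_insert, mem_singleton, SimpleGraph.dart_edge_eq_iff]
      simp
    rw [h5, Finset.sum_pair d.symm_ne.symm] at h2
    exact h2
  have h2 : ∀ d : H.Dart, y (Quotient.mk _ d.symm) = y (Quotient.mk _ d) := by
    intro d
    have h3 := h1 d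
    have h4 : ∀ a b : ZMod 2, a + b = 0 → b = a := by decide
    exact h4 _ _ h3
  have h3 : ∀ d : H.Dart, y (Quotient.mk _ (σ d)) = y (Quotient.mk _ d) := by
    intro d
    rw [← h2 d]
    congr 1
    refine Quotient.sound ?_
    show (σ * flip H).SameCycle (σ d) d.symm
    have h4 : (σ * flip H) d.symm = σ d := by
      show σ (d.symm.symm) = σ d
      rw [SimpleGraph.Dart.symm_symm]
    rw [← h4]
    exact Equiv.Perm.sameCycle_apply_left.2 (Equiv.Perm.SameCycle.refl _ _)
  have h4 : ∀ (n : ℕ) (d : H.Dart), y (Quotient.mk _ ((σ ^ n) d)) = y (Quotient.mk _ d) := by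
    intro n
    induction n with
    | zero => intro d; rfl
    | succ n ih =>
      intro d
      rw [pow_succ', Equiv.Perm.mul_apply, h3, ih]
  have h5 : ∀ d d' : H.Dart, d.fst = d'.fst → y (Quotient.mk _ d) = y (Quotient.mk _ d') := by
    intro d d' hd
    obtain ⟨i, hi⟩ := (hvert d d').2 hd
    rcases i with n | n
    · rw [← hi]
      exact (h4 n d).symm
    · rw [zpow_negSucc, Equiv.Perm.inv_eq_iff_eq] at hi
      rw [hi]
      exact h4 (n + 1) d'
  have h6 : ∀ (u v : V), H.Walk u v → ∀ d d' : H.Dart, d.fst = u → d'.fst = v →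
      y (Quotient.mk _ d) = y (Quotient.mk _ d') := by
    intro u v p
    induction p with
    | nil => intro d d' hd hd'; exact h5 d d' (hd.trans hd'.symm)
    | @cons u w v h p ih =>
      intro d d' hd hd'
      have h7 : y (Quotient.mk _ d) = y (Quotient.mk _ (⟨(u, w), h⟩ : H.Dart)) := h5 d _ hd
      rw [h7, ← h2]
      exact ih _ d' rfl hd'
  intro f f'
  induction f using Quotient.inductionOn with
  | h d =>
    induction f' using Quotient.inductionOn with
    | h d' =>
      obtain ⟨p⟩ := hconn.preconnected d.fst d'.fst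
      exact h6 _ _ p d d' rfl rfl

end Pool.Agent.Q124.GH
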