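import Pool.Agent.Q225.GH.Stm

/-!
# Job KPAIR: the values of the form at the chains of the edges
-/

set_option autoImplicit false

namespace Pool.Agent.Q124.GH

open Finset Pool.Agent.Q225.GH

theorem t_KPAIR (hO : S_ORTH) (hS : S_SWAP) : S_KPAIR := by
  intro V _ _ H _ σ pos hpos cls T S hK
  refine ⟨?_, ?_⟩
  · intro x x' y y' hx hy
    refine hO V H pos (T x y) (T x' y') fun d d' hd => ?_
    by_contra hcon
    rw [not_or] at hcon
    obtain ⟨h1, h2⟩ := hcon
    rcases hK.supp x y d h1 with ⟨h3, -⟩ | ⟨h3, -⟩ <;>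
    rcases hK.supp x' y' d' h2 with ⟨h4, -⟩ | ⟨h4, -⟩ <;>
    rw [hd, h4, Option.some_inj] at h3
    · exact hx (Sum.inl.inj h3).symm
    · exact absurd h3 Sum.inr_ne_inl
    · exact absurd h3 Sum.inl_ne_inr
    · exact hy (Sum.inr.inj h3).symm
  · intro x y y' hy
    have h0 : ∀ e, T x y e = 0 ∨ T x y' e = 0 := by
      rintro ⟨e, he⟩
      by_contra hcon
      rw [not_or] at hcon
      obtain ⟨h1, h2⟩ := hcon
      obtain ⟨d, hd⟩ : ∃ d : H.Dart, d.edge = e := by
        induction e using Sym2.ind with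
        | h a b => exact ⟨⟨(a, b), he⟩, rfl⟩
      subst hd
      rcases hK.supp x y d h1 with ⟨h3, h3'⟩ | ⟨h3, h3'⟩ <;>
      rcases hK.supp x y' d h2 with ⟨h4, h4'⟩ | ⟨h4, h4'⟩
      · rw [h3', Option.some_inj] at h4'
        exact hy (Sum.inr.inj h4')
      · rw [h3, Option.some_inj] at h4
        exact absurd h4 Sum.inl_ne_inr
      · rw [h3, Option.some_inj] at h4
        exact absurd h4 Sum.inr_ne_inl
      · rw [h3, Option.some_inj] at h4
        exact hy (Sum.inr.inj h4)
    rw [hS V H σ pos hpos (T x y) (T x y') h0]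
    have hz : ∀ (y : Fin 3) (v : V), cls v ≠ some (Sum.inl x) → cls v ≠ some (Sum.inr y) →
        (∑ d : H.Dart with d.fst = v, on (T x y) d) = 0 := by
      intro y v h1 h2
      refine Finset.sum_eq_zero fun d hd => ?_
      rw [mem_filter] at hd
      by_contra h3
      rcases hK.supp x y d h3 with ⟨h4, -⟩ | ⟨h4, -⟩
      · rw [hd.2] at h4
        exact h1 h4
      · rw [hd.2] at h4
        exact h2 h4
    have hsq : ∀ s : ZMod 2, s * s = s := by decide
    rw [← hK.odd x, Finset.sum_filter]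
    refine Finset.sum_congr rfl fun v _ => ?_
    by_cases hv : cls v = some (Sum.inl x)
    · rw [if_pos hv, hK.row v x hv y, hK.row v x hv y', hsq]
    · rw [if_neg hv]
      by_cases hv2 : cls v = some (Sum.inr y)
      · have hv3 : cls v ≠ some (Sum.inr y') := by
          rw [hv2, Ne, Option.some_inj]
          exact fun h => hy (Sum.inr.inj h)
        rw [hz y' v hv hv3, mul_zero]
      · rw [hz y v hv hv2, zero_mul]

end Pool.Agent.Q124.GH
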