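import Pool.Agent.Q225.GH.Stm

/-!
# Job SWAP: the symmetrised form
-/

set_option autoImplicit false

namespace Pool.Agent.Q124.GH

open Finset Pool.Agent.Q225.GH

theorem t_SWAP : S_SWAP := by
  intro V _ _ H _ σ pos hpos P Q hPQ
  have hd0 : ∀ d : H.Dart, on P d * on Q d = 0 := by
    intro d
    rcases hPQ ⟨d.edge, d.edge_mem⟩ with h | h
    · rw [on, h, zero_mul]
    · rw [on, on, h, mul_zero]
  have he : ∑ e, P e * Q e = 0 := by
    refine Finset.sum_eq_zero fun e _ => ?_
    rcases hPQ e with h | h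
    · rw [h, zero_mul]
    · rw [h, mul_zero]
  have he' : ∑ e, Q e * P e = 0 := by
    rw [← he]
    exact Finset.sum_congr rfl fun e _ => mul_comm _ _
  have h1 : form pos P Q = ∑ d : H.Dart, ∑ d' : H.Dart,
      if d'.fst = d.fst ∧ pos d' ≤ pos d then on P d * on Q d' else 0 := by
    rw [form, he, add_zero]
    refine Finset.sum_congr rfl fun d _ => ?_
    rw [pot, Finset.mul_sum, Finset.sum_filter]
  have h2 : form pos Q P = ∑ d : H.Dart, ∑ d' : H.Dart,
      if d'.fst = d.fst ∧ pos d ≤ pos d' then on P d * on Q d' else 0 := by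
    rw [form, he', add_zero, Finset.sum_comm]
    refine Finset.sum_congr rfl fun d _ => ?_
    rw [pot, Finset.mul_sum, Finset.sum_filter]
    refine Finset.sum_congr rfl fun d' _ => ?_
    rw [mul_comm (on Q d)]
    by_cases h : d'.fst = d.fst ∧ pos d' ≤ pos d
    · rw [if_pos h, if_pos ⟨h.1.symm, h.2⟩]
    · rw [if_neg h, if_neg fun h' => h ⟨h'.1.symm, h'.2⟩]
  have h3 : ∑ v : V, (∑ d : H.Dart with d.fst = v, on P d) * (∑ d : H.Dart with d.fst = v, on Q d) =
      ∑ d : H.Dart, ∑ d' : H.Dart, if d'.fst = d.fst then on P d * on Q d' else 0 := by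
    have h4 : ∀ v : V,
        (∑ d : H.Dart with d.fst = v, on P d) * (∑ d : H.Dart with d.fst = v, on Q d) =
        ∑ d : H.Dart, if d.fst = v then on P d * (∑ d' : H.Dart with d'.fst = v, on Q d') else 0 := by
      intro v
      rw [Finset.sum_mul, Finset.sum_filter]
    rw [Finset.sum_congr rfl fun v _ => h4 v, Finset.sum_comm]
    refine Finset.sum_congr rfl fun d _ => ?_
    rw [Finset.sum_ite_eq univ d.fst fun v => on P d * (∑ d' : H.Dart with d'.fst = v, on Q d'),
      if_pos (mem_univ _), Finset.mul_sum, Finset.sum_filter]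
  rw [h1, h2, h3, ← Finset.sum_add_distrib]
  refine Finset.sum_congr rfl fun d _ => ?_
  rw [← Finset.sum_add_distrib]
  refine Finset.sum_congr rfl fun d' _ => ?_
  by_cases h : d'.fst = d.fst
  · rw [if_pos h]
    by_cases hdd : d' = d
    · rw [hdd, hd0 d]
      simp
    · rcases lt_trichotomy (pos d') (pos d) with h4 | h4 | h4
      · rw [if_pos ⟨h, h4.le⟩, if_neg fun h5 => absurd h5.2 (not_le.2 h4), add_zero]
      · exact absurd (hpos.inj d' d h h4) hdd
      · rw [if_neg fun h5 => absurd h5.2 (not_le.2 h4), if_pos ⟨h, h4.le⟩, zero_add]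
  · rw [if_neg h, if_neg fun h5 => h h5.1, if_neg fun h5 => h h5.1, add_zero]

end Pool.Agent.Q124.GH
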